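import Mathlib
import Pool.Agent.TH646.CA.Main

/-!
# Almost prime congruent numbers in all classes modulo `8`: many in intervals of length `X ^ θ`, `θ > 3/4`

Every interval `[X, X + X ^ θ]`, `3/4 < θ ≤ 1`, contains at least `X ^ (θ - 1/2) / log ^ 8 X` squarefree
congruent numbers `n` of every class `1, 2, 3, 5, 6, 7` modulo `8` with a bounded number of prime factors,
all odd ones larger than a power of `X`.

Proof (starting files `Pool.Agent.TH646.CA`): binary quartic forms whose values are congruent numbers,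
on pairs of integers one of which is small, a sieve for products of linear forms, and the removal of the
squares of large primes.
-/

set_option autoImplicit false

namespace Pool.Agent.Results.MP_8efaaa_nt.AlmostPrimesLongerIntervals

/-- `d` is the area of a right triangle with rational sides -/
def Congruent (d : ℕ) : Prop :=
  ∃ a b c : ℚ, 0 < a ∧ 0 < b ∧ 0 < c ∧ a ^ 2 + b ^ 2 = c ^ 2 ∧ a * b / 2 = (d : ℚ)

/-- the squarefree congruent numbers `n` of `[X, X + H]` with `n ≡ r` modulo `8`, with at most `R`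
different prime factors, the odd ones all larger than `X ^ (1 / R)` -/
def numbers (R : ℕ) (X H : ℝ) (r : ℕ) : Set ℕ :=
  {n : ℕ | X ≤ n ∧ (n : ℝ) ≤ X + H ∧ n % 8 = r ∧ Squarefree n ∧ Congruent n ∧
    n.primeFactors.card ≤ R ∧ ∀ p : ℕ, p.Prime → p ∣ n → p = 2 ∨ X ^ (1 / (R : ℝ)) < p}

/-- Let `3/4 < θ ≤ 1`. There are `R ≥ 1` and `X₀` such that for all real `X ≥ X₀` and every
`r ∈ {1, 2, 3, 5, 6, 7}` the interval `[X, X + X ^ θ]` contains at least `X ^ (θ - 1/2) / log ^ 8 X`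
squarefree congruent numbers `n ≡ r` modulo `8` which have at most `R` prime factors, the odd ones all
larger than `X ^ (1 / R)`. -/
theorem result (θ : ℝ) (hθ : 3 / 4 < θ) (hθ1 : θ ≤ 1) : ∃ R : ℕ, 1 ≤ R ∧ ∃ X₀ : ℝ,
    ∀ X : ℝ, X₀ ≤ X → ∀ r ∈ ({1, 2, 3, 5, 6, 7} : Finset ℕ),
      X ^ (θ - 1 / 2) / Real.log X ^ 8 ≤ ((numbers R X (X ^ θ) r).ncard : ℝ) := by
  obtain ⟨R, hR, X₀, h⟩ := Pool.Agent.TH646.CA.main θ hθ hθ1
  refine ⟨R, hR, X₀, fun X hX r hr => ?_⟩
  have key : ∃ κ lam s e : ℤ, Pool.Agent.TH646.CA.Fam κ lam s e (r : ℤ) := by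
    simp only [Finset.mem_insert, Finset.mem_singleton] at hr
    rcases hr with h | h | h | h | h | h <;> subst h
    · exact ⟨1, 36, 6, 17, by simp [Pool.Agent.TH646.CA.Fam]⟩
    · exact ⟨2, 18, 3, 1, by simp [Pool.Agent.TH646.CA.Fam]⟩
    · exact ⟨1, 36, 6, 43, by simp [Pool.Agent.TH646.CA.Fam]⟩
    · exact ⟨1, 36, 6, 13, by simp [Pool.Agent.TH646.CA.Fam]⟩
    · exact ⟨2, 18, 3, 11, by simp [Pool.Agent.TH646.CA.Fam]⟩
    · exact ⟨1, 36, 6, 7, by simp [Pool.Agent.TH646.CA.Fam]⟩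
  obtain ⟨κ, lam, s, e, hf⟩ := key
  have h1 := h X hX κ lam s e r hf
  refine h1.trans (le_of_eq ?_)
  congr 2
  ext n
  simp only [numbers, Set.mem_setOf_eq]
  have e1 : ((n : ℤ) % 8 = (r : ℤ)) ↔ n % 8 = r := by omega
  rw [e1]
  rfl

end Pool.Agent.Results.MP_8efaaa_nt.AlmostPrimesLongerIntervals
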