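import Mathlib
import Pool.Agent.Q18.P.Cat
import Pool.Agent.Q18.P.EC

/-!
# Congruent numbers in the classes 5, 6, 7 mod 8: many at once, from one sequence of windows

Let `a_1, …, a_m` be squarefree, `≡ 5, 6, 7 mod 8`, `E_i : y² = x³ - a_i² x`, `S` a finite set of primes containing those
dividing `6 a_1 ⋯ a_m`, and let `P(y) = ∏_i ∏_{p ∉ S, p ≤ y} #E_i(𝔽_p)/p` be ONE product for all of them,
`P*(y) = exp (- ∑_i ∑_{p ∉ S, p^k ≤ y} (α_{i,p}^k + β_{i,p}^k)/(k p^k))`. `F_i` is the `L`-function of `E_i` without the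
factors at `S`; its properties listed in `Known` are theorems (Deuring-Hecke, root number `-1`,
Gross-Zagier-Kolyvagin). Fix `0 < δ < 1`; the windows are `[Y^(1-δ), Y]`.

1. If `∫ max (log P(y) - κ log log y, 0) dy/y ≤ B log Y` over the windows of arbitrarily large `Y` (one sequence, as sparse
   as we like), then all `F_i` are free of zeros in `Re s > 1` and at most `(κ - m)/2` of the `a_i` are not congruent; in
   particular all are congruent if `κ < m + 2`.
2. If at least `k` of the `a_i` are not congruent, then for every `κ < m + 2k` and every `B` the bound fails for ALL large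
   `Y`.
3. For any one `κ` with `m ≤ κ < m + 2`: the Riemann hypothesis and order `1` for all `F_i` ⟺ the bound of 1. for some `B`
   and arbitrarily large `Y` ⟺ for some `B` and all large `Y`.
4. For every real `κ`: the Riemann hypothesis for all `F_i` and `∑ ord F_i ≤ κ` ⟺ the bound of 1. for some `B` and
   arbitrarily large `Y` ⟺ for some `B` and all large `Y`.
5. For `A > 0`: the Riemann hypothesis and order `1` for all `F_i` and `∏ F_i'(1) = A` ⟺
   `∫ |log (A P*(y)/(e^γ log y)^m)| dy/y ≤ ε log Y` for each `ε > 0` and arbitrarily large `Y` ⟺ the same for all large `Y`.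
-/

set_option autoImplicit false

namespace Pool.Agent.Results.MP_8efaaa_nt.ManyAtOnce

open Filter Topology Set Complex NumberField IsDedekindDomain MeasureTheory
open Pool.Agent.Q18.P (NoZeros Order Holo MeanBound excess ratio IsLeading)
open Pool.Agent.Q18.P.EC (Good Euler)

/-- `a` is a congruent number -/
def Congruent (a : ℕ) : Prop := ∃ x y z t : ℤ, 0 < x ∧ 0 < y ∧ 0 < z ∧ 0 < t ∧
  x ^ 2 + (a : ℤ) * y ^ 2 = z ^ 2 ∧ x ^ 2 - (a : ℤ) * y ^ 2 = t ^ 2

/-- the coefficient `- a²` of `y² = x³ - a² x` -/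
def coef (a : ℕ) : 𝓞 ℚ := -(a : 𝓞 ℚ) ^ 2

/-- What is known about the `L`-function `F` of `y² = x³ - a² x` without the Euler factors at `S`. -/
structure Known (a : ℕ) (S : Finset (HeightOneSpectrum (𝓞 ℚ))) (F : ℂ → ℂ) : Prop where
  sqf : Squarefree a
  mod : a % 8 = 5 ∨ a % 8 = 6 ∨ a % 8 = 7
  good : ∀ v, v ∉ S → Good (coef a) 0 v
  /-- the Euler product -/
  euler : Euler S (coef a) 0 F
  /-- holomorphic of polynomial growth in a half plane `Re s > 1 - η` (Deuring, Hecke) -/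
  holo : Holo 1 F
  /-- root number `-1` -/
  odd : ∀ m : ℤ, Order 1 F m → 2 ∣ m - 1
  /-- Gross-Zagier, Kolyvagin -/
  one : Order 1 F 1 → Congruent a

variable {m : ℕ}

/-- `P(y) = ∏_i ∏_{p ∉ S, p ≤ y} #E_i(𝔽_p)/p` -/
noncomputable def product (S : Finset (HeightOneSpectrum (𝓞 ℚ))) (a : Fin m → ℕ) (y : ℝ) : ℝ :=
  ∏ i, Pool.Agent.Q18.P.EC.product S (coef (a i)) 0 y

/-- `P*(y)`, the same product with the prime powers up to `y` -/
noncomputable def productStar (S : Finset (HeightOneSpectrum (𝓞 ℚ))) (a : Fin m → ℕ) (y : ℝ) : ℝ :=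
  ∏ i, Pool.Agent.Q18.P.EC.productStar S (coef (a i)) 0 y

/-- the number of the `a_i` which are not congruent -/
noncomputable def bad (a : Fin m → ℕ) : ℕ := Nat.card {i // ¬ Congruent (a i)}

/-- **Many congruent numbers at once from one sequence of windows.** -/
theorem result (m : ℕ) (a : Fin m → ℕ) (S : Finset (HeightOneSpectrum (𝓞 ℚ))) (F : Fin m → ℂ → ℂ)
    (h : ∀ i, Known (a i) S (F i)) (δ : ℝ) (h0 : 0 < δ) (h1 : δ < 1) :
    -- (1) one sequence of windows
    (∀ κ B : ℝ, (∃ᶠ Y : ℝ in atTop, MeanBound δ (excess (product S a) κ) B Y) →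
      (∀ i, NoZeros 1 (F i)) ∧ (bad a : ℝ) ≤ (κ - m) / 2 ∧ (κ < m + 2 → ∀ i, Congruent (a i))) ∧
    -- (2) in every window
    (∀ k : ℕ, k ≤ bad a → ∀ κ B : ℝ, κ < m + 2 * k →
      ∀ᶠ Y : ℝ in atTop, ¬ MeanBound δ (excess (product S a) κ) B Y) ∧
    -- (3) all orders are one
    (∀ κ : ℝ, m ≤ κ → κ < m + 2 → List.TFAE [
      (∀ i, NoZeros 1 (F i)) ∧ ∀ i, Order 1 (F i) 1,
      ∃ B : ℝ, ∃ᶠ Y : ℝ in atTop, MeanBound δ (excess (product S a) κ) B Y,
      ∃ B : ℝ, ∀ᶠ Y : ℝ in atTop, MeanBound δ (excess (product S a) κ) B Y]) ∧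
    -- (4) the sum of the orders
    (∀ κ : ℝ, List.TFAE [
      (∀ i, NoZeros 1 (F i)) ∧ ∃ e : Fin m → ℤ, (∀ i, Order 1 (F i) (e i)) ∧ ((∑ i, e i : ℤ) : ℝ) ≤ κ,
      ∃ B : ℝ, ∃ᶠ Y : ℝ in atTop, MeanBound δ (excess (product S a) κ) B Y,
      ∃ B : ℝ, ∀ᶠ Y : ℝ in atTop, MeanBound δ (excess (product S a) κ) B Y]) ∧
    -- (5) the product of the derivatives
    (∀ A : ℝ, 0 < A → List.TFAE [
      (∀ i, NoZeros 1 (F i)) ∧ (∀ i, Order 1 (F i) 1) ∧
        Tendsto (fun s : ℂ => (∏ i, F i s) / (s - ((1 : ℝ) : ℂ)) ^ (m : ℤ)) (𝓝[≠] ((1 : ℝ) : ℂ)) (𝓝 (A : ℂ)),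
      ∀ ε : ℝ, 0 < ε → ∃ᶠ Y : ℝ in atTop, MeanBound δ (fun y => |ratio (productStar S a) A m y|) ε Y,
      ∀ ε : ℝ, 0 < ε → ∀ᶠ Y : ℝ in atTop, MeanBound δ (fun y => |ratio (productStar S a) A m y|) ε Y]) := by
  classical
  set r : (i : Fin m) → HeightOneSpectrum (𝓞 ℚ) → Fin 2 → ℂ := fun i => Pool.Agent.Q18.P.EC.al (coef (a i)) 0 with hr
  have hP : Pool.Agent.Q18.P.Pure 1 S (Pool.Agent.Q18.P.cat (N := fun _ : Fin m => 2) r) :=
    Pool.Agent.Q18.P.cat_pure fun i => Pool.Agent.Q18.P.EC.pure (h i).good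
  have hH : Holo 1 (fun s => ∏ i, F i s) := Pool.Agent.Q18.P.holo_prod _ fun i _ => (h i).holo
  have hE : Pool.Agent.Q18.P.Euler 1 S (Pool.Agent.Q18.P.cat (N := fun _ : Fin m => 2) r) (fun s => ∏ i, F i s) :=
    Pool.Agent.Q18.P.cat_euler fun i => Pool.Agent.Q18.P.EC.euler (h i).good (h i).euler
  have L := Pool.Agent.Q18.P.laws Pool.Agent.Q18.P.EC.one_c hP.le hH hE h0 h1
  have e1 : product S a = Pool.Agent.Q18.P.product 1 S (Pool.Agent.Q18.P.cat (N := fun _ : Fin m => 2) r) := by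
    funext y
    rw [Pool.Agent.Q18.P.product_cat]
    unfold product
    refine Finset.prod_congr rfl fun i _ => ?_
    rw [Pool.Agent.Q18.P.EC.product_eq (h i).good]
  have e2 : productStar S a = Pool.Agent.Q18.P.productStar 1 S (Pool.Agent.Q18.P.cat (N := fun _ : Fin m => 2) r) := by
    funext y
    rw [Pool.Agent.Q18.P.star_cat]
    unfold productStar
    refine Finset.prod_congr rfl fun i _ => ?_
    rw [Pool.Agent.Q18.P.EC.star_eq (h i).good]
  have hz : NoZeros 1 (fun s => ∏ i, F i s) ↔ ∀ i, NoZeros 1 (F i) := Pool.Agent.Q18.P.noZeros_prod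
  have hfin : (∀ i, NoZeros 1 (F i)) → ∃ e : Fin m → ℤ, ∀ i, Order 1 (F i) (e i) := by
    intro h2
    have := fun i => Pool.Agent.Q18.P.order_finite (h i).holo (h2 i)
    choose e he using this
    exact ⟨e, he⟩
  have hsum : ∀ e : Fin m → ℤ, (∀ i, Order 1 (F i) (e i)) → Order 1 (fun s => ∏ i, F i s) (∑ i, e i) :=
    fun e he => Pool.Agent.Q18.P.order_prod Finset.univ (fun i _ => (h i).holo) fun i _ => he i
  have huniq : ∀ e e' : ℤ, Order 1 (fun s => ∏ i, F i s) e → Order 1 (fun s => ∏ i, F i s) e' → e = e' := by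
    intro e e' h2 h'
    unfold Pool.Agent.Q18.P.Order at h2 h'
    rw [h2] at h'
    exact_mod_cast h'
  have hone : ∀ (e : Fin m → ℤ), (∀ i, Order 1 (F i) (e i)) → ∀ i, 1 ≤ e i ∧ 2 ∣ e i - 1 := by
    intro e he i
    have h2 := Pool.Agent.Q18.P.order_nonneg (h i).holo (he i)
    have h3 := (h i).odd _ (he i)
    exact ⟨by omega, h3⟩
  have hcongr : ∀ (e : Fin m → ℤ), (∀ i, Order 1 (F i) (e i)) → ∀ i, ¬ Congruent (a i) → 3 ≤ e i := by
    intro e he i hi
    have h2 := hone e he i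
    have h3 : e i ≠ 1 := by
      intro h4
      have h5 := he i
      rw [h4] at h5
      exact hi ((h i).one h5)
    omega
  have hcount : ∀ (e : Fin m → ℤ), (∀ i, Order 1 (F i) (e i)) → (m : ℤ) + 2 * bad a ≤ ∑ i, e i := by
    intro e he
    have hcard : (bad a : ℤ) = ∑ i : Fin m, if ¬ Congruent (a i) then (1 : ℤ) else 0 := by
      unfold bad
      rw [Finset.sum_boole, Nat.card_eq_fintype_card, Fintype.card_subtype]
    have hm : (m : ℤ) = ∑ _i : Fin m, (1 : ℤ) := by simp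
    rw [hcard, hm, Finset.mul_sum, ← Finset.sum_add_distrib]
    refine Finset.sum_le_sum fun i _ => ?_
    have h2 := hone e he i
    by_cases h3 : Congruent (a i)
    · rw [if_neg (not_not.2 h3)]
      omega
    · rw [if_pos h3]
      have := hcongr e he i h3
      omega
  have hup : ∀ κ : ℝ, List.TFAE [
      (∀ i, NoZeros 1 (F i)) ∧ ∃ e : Fin m → ℤ, (∀ i, Order 1 (F i) (e i)) ∧ ((∑ i, e i : ℤ) : ℝ) ≤ κ,
      ∃ B : ℝ, ∃ᶠ Y : ℝ in atTop, MeanBound δ (excess (product S a) κ) B Y,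
      ∃ B : ℝ, ∀ᶠ Y : ℝ in atTop, MeanBound δ (excess (product S a) κ) B Y] := by
    intro κ
    rw [e1]
    have t := L.upper κ
    have e3 : (NoZeros 1 (fun s => ∏ i, F i s) ∧ ∃ e : ℤ, Order 1 (fun s => ∏ i, F i s) e ∧ (e : ℝ) ≤ κ) ↔
        ((∀ i, NoZeros 1 (F i)) ∧ ∃ e : Fin m → ℤ, (∀ i, Order 1 (F i) (e i)) ∧
          ((∑ i, e i : ℤ) : ℝ) ≤ κ) := by
      rw [hz]
      refine and_congr_right fun hzz => ?_
      constructor
      · rintro ⟨e', he', hle⟩
        obtain ⟨e, he⟩ := hfin hzz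
        have h3 := huniq _ _ he' (hsum e he)
        exact ⟨e, he, by rw [← h3]; exact hle⟩
      · rintro ⟨e, he, hle⟩
        exact ⟨_, hsum e he, hle⟩
    rw [e3] at t
    exact t
  -- all orders are one if their sum is less than `m + 2`
  have hall : ∀ (e : Fin m → ℤ), (∀ i, Order 1 (F i) (e i)) → ∑ i, e i < (m : ℤ) + 2 → ∀ i, e i = 1 := by
    intro e he hlt i
    by_contra hi
    have h2 := hone e he
    have h3 : 3 ≤ e i := by
      have := h2 i
      omega
    have h4 : ∑ j, (1 + if j = i then (2 : ℤ) else 0) ≤ ∑ j, e j := by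
      refine Finset.sum_le_sum fun j _ => ?_
      split_ifs with h5
      · rw [h5]; omega
      · have := h2 j
        omega
    rw [Finset.sum_add_distrib, Finset.sum_ite_eq' Finset.univ i, if_pos (Finset.mem_univ i)] at h4
    simp only [Finset.sum_const, Finset.card_univ, Fintype.card_fin, nsmul_eq_mul, mul_one] at h4
    omega
  have first : ∀ κ B : ℝ, (∃ᶠ Y : ℝ in atTop, MeanBound δ (excess (product S a) κ) B Y) →
      (∀ i, NoZeros 1 (F i)) ∧ (bad a : ℝ) ≤ (κ - m) / 2 ∧ (κ < m + 2 → ∀ i, Congruent (a i)) := by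
    intro κ B hB
    have t : ((∀ i, NoZeros 1 (F i)) ∧ ∃ e : Fin m → ℤ, (∀ i, Order 1 (F i) (e i)) ∧ ((∑ i, e i : ℤ) : ℝ) ≤ κ) ↔
      ∃ B : ℝ, ∃ᶠ Y : ℝ in atTop, MeanBound δ (excess (product S a) κ) B Y := (hup κ).out 0 1
    obtain ⟨hz', e, he, hle⟩ := t.2 ⟨B, hB⟩
    refine ⟨hz', ?_, fun hκ i => ?_⟩
    · have h2 := hcount e he
      have h3 : ((m : ℤ) + 2 * bad a : ℝ) ≤ κ := by
        refine le_trans ?_ hle
        exact_mod_cast h2
      push_cast at h3
      linarith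
    · have h2 : ((∑ i, e i : ℤ) : ℝ) < ((m : ℤ) + 2 : ℤ) := by
        push_cast
        push_cast at hle
        linarith
      have h3 := hall e he (by exact_mod_cast h2) i
      have h4 := he i
      rw [h3] at h4
      exact (h i).one h4
  refine ⟨first, fun k hk κ B hκ => ?_, fun κ hκ1 hκ2 => ?_, hup, fun A hA => ?_⟩
  · by_contra hne
    rw [Filter.not_eventually] at hne
    have hB : ∃ᶠ Y : ℝ in atTop, MeanBound δ (excess (product S a) κ) B Y := hne.mono fun Y hY => not_not.1 hY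
    have h2 := (first κ B hB).2.1
    have h3 : (k : ℝ) ≤ bad a := by exact_mod_cast hk
    linarith
  · have t := hup κ
    have e3 : ((∀ i, NoZeros 1 (F i)) ∧ ∃ e : Fin m → ℤ, (∀ i, Order 1 (F i) (e i)) ∧ ((∑ i, e i : ℤ) : ℝ) ≤ κ) ↔
        ((∀ i, NoZeros 1 (F i)) ∧ ∀ i, Order 1 (F i) 1) := by
      refine and_congr_right fun _ => ?_
      constructor
      · rintro ⟨e, he, hle⟩ i
        have h2 : ((∑ i, e i : ℤ) : ℝ) < ((m : ℤ) + 2 : ℤ) := by
          push_cast
          push_cast at hle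
          linarith
        have h3 := hall e he (by exact_mod_cast h2) i
        have h4 := he i
        rwa [h3] at h4
      · intro h2
        refine ⟨fun _ => 1, h2, ?_⟩
        simpa using hκ1
    rw [e3] at t
    exact t
  · rw [e2]
    have t := Pool.Agent.Q18.P.Laws.lead_real Pool.Agent.Q18.P.EC.one_c hP hH hE h0 h1 (m : ℤ) hA
    have e3 : (NoZeros 1 (fun s => ∏ i, F i s) ∧ IsLeading 1 (fun s => ∏ i, F i s) (m : ℤ) A) ↔
        ((∀ i, NoZeros 1 (F i)) ∧ (∀ i, Order 1 (F i) 1) ∧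
        Tendsto (fun s : ℂ => (∏ i, F i s) / (s - ((1 : ℝ) : ℂ)) ^ (m : ℤ)) (𝓝[≠] ((1 : ℝ) : ℂ)) (𝓝 (A : ℂ))) := by
      rw [hz]
      refine and_congr_right fun hzz => ?_
      obtain ⟨e, he⟩ := hfin hzz
      constructor
      · rintro ⟨h2, h3⟩
        have h4 := huniq _ _ h2 (hsum e he)
        refine ⟨fun i => ?_, h3⟩
        have h5 := hall e he (by rw [← h4]; omega) i
        have h6 := he i
        rwa [h5] at h6
      · rintro ⟨h2, h3⟩
        refine ⟨?_, h3⟩
        have := hsum (fun _ => 1) h2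
        simp only [Finset.sum_const, Finset.card_univ, Fintype.card_fin, nsmul_eq_mul, mul_one] at this
        exact this
    rw [e3] at t
    simp only [Int.cast_natCast] at t
    exact t

end Pool.Agent.Results.MP_8efaaa_nt.ManyAtOnce
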