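import Mathlib
import Pool.Agent.Q18.P.EC
import Pool.Agent.Q190.RV.Many

/-!
# Congruent numbers in the classes 5, 6, 7 mod 8 from one exponent

Let `a_1, …, a_m` be squarefree, `≡ 5, 6, 7 mod 8`, `E_i : y² = x³ - a_i² x`, `S` a finite set of primes containing those
dividing `6 a_1 ⋯ a_m`, and let `P(y) = ∏_i ∏_{p ∉ S, p ≤ y} #E_i(𝔽_p)/p` be ONE product for all of them,
`P*(y) = exp (- ∑_i ∑_{p ∉ S, p^k ≤ y} (α_{i,p}^k + β_{i,p}^k)/(k p^k))`. `F_i` is the `L`-function of `E_i` without the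
factors at `S`; its properties listed in `Known` are theorems (Deuring-Hecke, root number `-1`,
Gross-Zagier-Kolyvagin). Nothing is supposed about zeros, and no power of `log y` occurs. For `R = P` and for `R = P*`:

1. If `R(y^l) ≤ Q R(y)` for all large `y`, for ONE `l > 1`, then all `F_i` are free of zeros in `Re s > 1`, and if `b` is the
   number of the `a_i` which are not congruent, then `l^(m + 2b) ≤ Q`. In particular all `a_i` are congruent if
   `Q < l^(m+2)`. For one number `a` (`m = 1`): `a` is congruent if `R(y^l) ≤ Q R(y)` for all large `y`, one `l > 1` and one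
   `Q < l³`, for example if `R(y²) ≤ 7.99 R(y)` for all large `y`.
2. If at least `k` of the `a_i` are not congruent, then for every `l > 1` and `Q < l^(m+2k)` there are arbitrarily large `y`
   with `R(y^l) > Q R(y)`.
3. If `R(y^l) / R(y)` converges to `ρ` for one `l > 1`, then all `F_i` are free of zeros in `Re s > 1`, and all the orders
   `ord_{s=1} F_i` are `1` if and only if `ρ = l^m`, and if and only if `ρ < l^(m+2)`; then all `a_i` are congruent.
4. For `A > 0`: `(e^γ log y)^m / P*(y)` converges to `A` if and only if all the orders are `1`, `∏_i F_i'(1) = A` (that is,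
   `∏_i F_i(s) / (s - 1)^m → A`), and `P*(y^l) / P*(y)` converges for all `l` in a set of positive outer measure in `(1, ∞)`;
   and then all `a_i` are congruent.
-/

set_option autoImplicit false

namespace Pool.Agent.Results.MP_8efaaa_nt.OneExponent

open Filter Topology Set Complex NumberField IsDedekindDomain MeasureTheory
open Pool.Agent.Q18.P.EC (Good Euler)

/-- `a` is a congruent number -/
def Congruent (a : ℕ) : Prop := ∃ x y z t : ℤ, 0 < x ∧ 0 < y ∧ 0 < z ∧ 0 < t ∧
  x ^ 2 + (a : ℤ) * y ^ 2 = z ^ 2 ∧ x ^ 2 - (a : ℤ) * y ^ 2 = t ^ 2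

/-- the coefficient `- a²` of `y² = x³ - a² x` -/
def coef (a : ℕ) : 𝓞 ℚ := -(a : 𝓞 ℚ) ^ 2

/-- What is known about the `L`-function `F` of `y² = x³ - a² x` without the Euler factors at `S`. -/
structure Known (a : ℕ) (S : Finset (HeightOneSpectrum (𝓞 ℚ))) (F : ℂ → ℂ) : Prop where
  sqf : Squarefree a
  mod : a % 8 = 5 ∨ a % 8 = 6 ∨ a % 8 = 7
  good : ∀ v, v ∉ S → Good (coef a) 0 v
  /-- the Euler product -/
  euler : Euler S (coef a) 0 F
  /-- holomorphic of polynomial growth in a half plane `Re s > 1 - η` (Deuring, Hecke) -/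
  holo : ∃ (η C : ℝ) (k : ℕ), 0 < η ∧ ∀ s : ℂ, 1 - η < s.re → DifferentiableAt ℂ F s ∧ ‖F s‖ ≤ C * (1 + ‖s‖) ^ k
  /-- root number `-1` -/
  odd : ∀ m : ℕ, analyticOrderAt F 1 = m → Odd m
  /-- Gross-Zagier, Kolyvagin -/
  one : analyticOrderAt F 1 = 1 → Congruent a

variable {m : ℕ}

/-- `P(y) = ∏_i ∏_{p ∉ S, p ≤ y} #E_i(𝔽_p)/p` -/
noncomputable def product (S : Finset (HeightOneSpectrum (𝓞 ℚ))) (a : Fin m → ℕ) (y : ℝ) : ℝ :=
  ∏ i, Pool.Agent.Q18.P.EC.product S (coef (a i)) 0 y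

/-- `P*(y)`, the same product with the prime powers up to `y` -/
noncomputable def productStar (S : Finset (HeightOneSpectrum (𝓞 ℚ))) (a : Fin m → ℕ) (y : ℝ) : ℝ :=
  ∏ i, Pool.Agent.Q18.P.EC.productStar S (coef (a i)) 0 y

/-- the number of the `a_i` which are not congruent -/
noncomputable def bad (a : Fin m → ℕ) : ℕ := Nat.card {i // ¬ Congruent (a i)}

/-- `F` has no zeros with `Re s > 1`. -/
def NoZeros (F : ℂ → ℂ) : Prop := ∀ s : ℂ, 1 < s.re → F s ≠ 0

/-- There is a set `Λ ⊆ (1, ∞)` of positive (outer) Lebesgue measure such that for every `l ∈ Λ` the ratio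
`R(y^l) / R(y)` converges as `y → ∞`. -/
def Conv (R : ℝ → ℝ) : Prop :=
  ∃ Λ : Set ℝ, Λ ⊆ Ioi 1 ∧ volume Λ ≠ 0 ∧ ∀ l ∈ Λ, ∃ r : ℝ, Tendsto (fun y : ℝ => R (y ^ l) / R y) atTop (𝓝 r)

/-- **Many congruent numbers at once from one exponent.** -/
theorem result (m : ℕ) (a : Fin m → ℕ) (S : Finset (HeightOneSpectrum (𝓞 ℚ))) (F : Fin m → ℂ → ℂ)
    (h : ∀ i, Known (a i) S (F i)) :
    (∀ R : ℝ → ℝ, R = product S a ∨ R = productStar S a →
      -- (1) one exponent
      (∀ l Q : ℝ, 1 < l → (∀ᶠ y : ℝ in atTop, R (y ^ l) ≤ Q * R y) →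
        (∀ i, NoZeros (F i)) ∧ l ^ (m + 2 * bad a) ≤ Q ∧ (Q < l ^ (m + 2) → ∀ i, Congruent (a i))) ∧
      -- (2) growth forced by numbers which are not congruent
      (∀ k : ℕ, k ≤ bad a → ∀ l Q : ℝ, 1 < l → Q < l ^ (m + 2 * k) → ∃ᶠ y : ℝ in atTop, Q * R y < R (y ^ l)) ∧
      -- (3) the limit for one exponent
      (∀ l ρ : ℝ, 1 < l → Tendsto (fun y : ℝ => R (y ^ l) / R y) atTop (𝓝 ρ) →
        (∀ i, NoZeros (F i)) ∧ ((∀ i, analyticOrderAt (F i) 1 = 1) ↔ ρ = l ^ m) ∧
        ((∀ i, analyticOrderAt (F i) 1 = 1) ↔ ρ < l ^ (m + 2)) ∧ (ρ < l ^ (m + 2) → ∀ i, Congruent (a i)))) ∧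
    -- (4) the product of the derivatives
    (∀ A : ℝ, 0 < A → (Tendsto (fun y : ℝ => (Real.exp Real.eulerMascheroniConstant * Real.log y) ^ m /
        productStar S a y) atTop (𝓝 A) ↔ (∀ i, analyticOrderAt (F i) 1 = 1) ∧
          Tendsto (fun s : ℂ => (∏ i, F i s) / (s - 1) ^ m) (𝓝[≠] 1) (𝓝 (A : ℂ)) ∧ Conv (productStar S a))) := by
  classical
  set r : (i : Fin m) → HeightOneSpectrum (𝓞 ℚ) → Fin 2 → ℂ := fun i => Pool.Agent.Q18.P.EC.al (coef (a i)) 0 with hr
  have hp : ∀ i, Pool.Agent.Q18.P.Pure 1 S (r i) := fun i => Pool.Agent.Q18.P.EC.pure (h i).good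
  have hP : Pool.Agent.Q18.P.Pure 1 S (Pool.Agent.Q18.P.cat (N := fun _ : Fin m => 2) r) :=
    Pool.Agent.Q18.P.cat_pure hp
  have hHi : ∀ i, Pool.Agent.Q190.RV.Holo 1 S (r i) (F i) := fun i =>
    ⟨(h i).holo, Pool.Agent.Q18.P.EC.euler (h i).good (h i).euler⟩
  have hH : Pool.Agent.Q190.RV.Holo 1 S (Pool.Agent.Q18.P.cat (N := fun _ : Fin m => 2) r) (fun s => ∏ i, F i s) :=
    Pool.Agent.Q190.RV.Holo.cat hHi
  obtain ⟨e, he, hm⟩ := Pool.Agent.Q190.RV.orders Pool.Agent.Q18.P.EC.one_c (N := fun _ : Fin m => 2)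
    (fun i => (hp i).le) hHi
  have e1 : product S a = Pool.Agent.Q18.P.product 1 S (Pool.Agent.Q18.P.cat (N := fun _ : Fin m => 2) r) := by
    funext y
    rw [Pool.Agent.Q18.P.product_cat]
    unfold product
    refine Finset.prod_congr rfl fun i _ => ?_
    rw [Pool.Agent.Q18.P.EC.product_eq (h i).good]
  have e2 : productStar S a = Pool.Agent.Q18.P.productStar 1 S (Pool.Agent.Q18.P.cat (N := fun _ : Fin m => 2) r) := by
    funext y
    rw [Pool.Agent.Q18.P.star_cat]
    unfold productStar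
    refine Finset.prod_congr rfl fun i _ => ?_
    rw [Pool.Agent.Q18.P.EC.star_eq (h i).good]
  have hz : Pool.Agent.Q18.P.NoZeros 1 (fun s => ∏ i, F i s) ↔ ∀ i, NoZeros (F i) := Pool.Agent.Q18.P.noZeros_prod
  have he' : ∀ i, analyticOrderAt (F i) 1 = e i := fun i => by
    have := he i
    rwa [Complex.ofReal_one] at this
  have hodd : ∀ i, e i % 2 = 1 := fun i => Nat.odd_iff.1 ((h i).odd _ (he' i))
  have hiff : (∀ i, analyticOrderAt (F i) 1 = 1) ↔ ∀ i, e i = 1 := by
    refine forall_congr' fun i => ?_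
    rw [he' i]
    exact Nat.cast_eq_one
  have hcongr : ∀ i, ¬ Congruent (a i) → 3 ≤ e i := by
    intro i hi
    have h2 := hodd i
    have h3 : e i ≠ 1 := by
      intro h4
      refine hi ((h i).one ?_)
      rw [he' i, h4, Nat.cast_one]
    omega
  have hcount : m + 2 * bad a ≤ ∑ i, e i := by
    have hcard : bad a = ∑ i : Fin m, if ¬ Congruent (a i) then 1 else 0 := by
      unfold bad
      rw [Finset.sum_boole, Nat.card_eq_fintype_card, Fintype.card_subtype]
      rfl
    have hm1 : m = ∑ _i : Fin m, 1 := by simp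
    have h5 : m + 2 * bad a = ∑ i : Fin m, (1 + 2 * if ¬ Congruent (a i) then 1 else 0) := by
      rw [Finset.sum_add_distrib, ← Finset.mul_sum, ← hcard, ← hm1]
    rw [h5]
    refine Finset.sum_le_sum fun i _ => ?_
    have h2 := hodd i
    by_cases h3 : Congruent (a i)
    · rw [if_neg (not_not.2 h3)]
      omega
    · rw [if_pos h3]
      have := hcongr i h3
      omega
  have hall : ∑ i, e i < m + 2 → ∀ i, e i = 1 := by
    intro hlt i
    by_contra hi
    have h3 : 3 ≤ e i := by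
      have := hodd i
      omega
    have h4 : ∑ j, (1 + if j = i then 2 else 0) ≤ ∑ j, e j := by
      refine Finset.sum_le_sum fun j _ => ?_
      split_ifs with h5
      · rw [h5]; omega
      · have := hodd j
        omega
    rw [Finset.sum_add_distrib, Finset.sum_ite_eq' Finset.univ i, if_pos (Finset.mem_univ i)] at h4
    simp only [Finset.sum_const, Finset.card_univ, Fintype.card_fin, smul_eq_mul, mul_one] at h4
    omega
  have hcg : (∀ i, e i = 1) → ∀ i, Congruent (a i) := fun h1 i => (h i).one (by rw [he' i, h1 i, Nat.cast_one])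
  have hsum1 : (∀ i, e i = 1) → ∑ i, e i = m := by
    intro h1
    rw [Finset.sum_congr rfl fun i _ => h1 i]
    simp
  rw [e1, e2]
  refine ⟨fun R hR => ?_, fun A hA => ?_⟩
  · have hR' : Pool.Agent.Q190.RV.Ratios 1 (fun s => ∏ i, F i s) (∑ i, e i) R := by
      rcases hR with rfl | rfl
      · exact Pool.Agent.Q190.RV.ratios Pool.Agent.Q18.P.EC.one_c hP.le hH hm
      · exact Pool.Agent.Q190.RV.ratios_star Pool.Agent.Q18.P.EC.one_c hP.le hH hm
    refine ⟨fun l Q hl hQ => ?_, fun k hk l Q hl hQ => ?_, fun l ρ hl hρ => ?_⟩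
    · obtain ⟨h1, h2⟩ := hR'.upper l Q hl hQ
      refine ⟨hz.1 h1, (pow_le_pow_right₀ hl.le hcount).trans h2, fun h3 => hcg (hall (hR'.lt hl hQ h3))⟩
    · refine hR'.freq hl (lt_of_lt_of_le hQ (pow_le_pow_right₀ hl.le ?_))
      omega
    · obtain ⟨h1, h2⟩ := hR'.limit l ρ hl hρ
      have i1 : (∀ i, analyticOrderAt (F i) 1 = 1) ↔ ρ = l ^ m := by
        rw [hiff, h2]
        constructor
        · intro h3
          rw [hsum1 h3]
        · intro h3
          have h4 : ∑ i, e i = m := pow_right_injective₀ (by linarith) hl.ne' h3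
          exact hall (by omega)
      have i2 : (∀ i, analyticOrderAt (F i) 1 = 1) ↔ ρ < l ^ (m + 2) := by
        constructor
        · intro h3
          rw [i1.1 h3]
          exact pow_lt_pow_right₀ hl (by omega)
        · intro h3
          rw [h2] at h3
          exact hiff.2 (hall ((pow_lt_pow_iff_right₀ hl).1 h3))
      exact ⟨hz.1 h1, i1, i2, fun h3 => hcg (hiff.1 (i2.2 h3))⟩
  · rw [Pool.Agent.Q190.RV.lead_iff' Pool.Agent.Q18.P.EC.one_c hP hH m hA]
    have hcast : ((1 : ℝ) : ℂ) = 1 := Complex.ofReal_one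
    constructor
    · rintro ⟨h1, h2, h3⟩
      have h4 : ∑ i, e i = m := by
        have := hm.symm.trans h2
        exact_mod_cast this
      rw [hcast] at h3
      exact ⟨hiff.2 (hall (by omega)), h3, h1⟩
    · rintro ⟨h1, h2, h3⟩
      refine ⟨h3, ?_, ?_⟩
      · rw [hm, hsum1 (hiff.1 h1)]
      · rw [hcast]
        exact h2

end Pool.Agent.Results.MP_8efaaa_nt.OneExponent
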